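import Mathlib
import Pool.Agent.Helper647.FU.MAFinal

set_option autoImplicit false

open Set Cardinal Topology Pool.Agent.Helper647.FU

/-- Under `MA + ¬CH`, a separable compact subspace of `C_p(Y)` with `Y` Lindelöf (or only of
countable extent) is metrizable exactly when it is countably tight. -/
theorem Pool.Agent.Results.MP_c9e9d2_gt.TightCase.result
    (MA : MartinAxiom) (notCH : (ℵ₁ : Cardinal.{0}) < 𝔠)
    (Y : Type) [TopologicalSpace Y] [T1Space Y] (hY : LindelofSpace Y ∨ CountableExtent Y)
    (K : Set (Y → ℝ)) (hK : IsCompact K) (hcont : ∀ f ∈ K, Continuous f)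
    (hsep : TopologicalSpace.SeparableSpace K) :
    CTight K ↔ TopologicalSpace.MetrizableSpace K :=
  ma_metrizable (MA1_of_MA MA notCH) (ext_or hY) K hK hcont hsep
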